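import Pool.Agent.H970R2.X.Fam

/-!
Chowla's conjecture on autocorrelations of the Moebius function, every order, all admissible
exponents, integer shifts, all scales: both signs of the product have positive lower density, in
every residue class where the product is not identically zero.
-/

namespace Pool.Agent.Results.MP_c59857_nt.AllOrdersBothSigns

open Finset

theorem vals {r : ℕ} (α : Fin r → ℤ) (ε : Fin r → ℕ) (n : ℕ) :
    ∏ i : Fin r, ArithmeticFunction.moebius (((n : ℤ) + α i).toNat) ^ (ε i) = 0 ∨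
    ∏ i : Fin r, ArithmeticFunction.moebius (((n : ℤ) + α i).toNat) ^ (ε i) = 1 ∨
    ∏ i : Fin r, ArithmeticFunction.moebius (((n : ℤ) + α i).toNat) ^ (ε i) = -1 := by
  have h := Pool.Agent.H970R2.X.fam_values (fun _ => 0) (fun i => ((n : ℤ) + α i).toNat) ε 0
  simpa only [zero_mul, zero_add] using h

theorem key {r : ℕ} (α : Fin r → ℤ) (hα : Function.Injective α) (ε : Fin r → ℕ)
    (hε : ∀ i, ε i = 1 ∨ ε i = 2) (hex : ∃ i, ε i = 1) (q c : ℕ) (hq : 0 < q)
    (hne : ∃ n : ℕ, 1 ≤ n ∧ n % q = c % q ∧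
      ∏ i : Fin r, ArithmeticFunction.moebius (((n : ℤ) + α i).toNat) ^ (ε i) ≠ 0) (σ : ℤ)
    (hσ : σ = 1 ∨ σ = -1) :
    ∃ δ : ℝ, 0 < δ ∧ ∃ N₁ : ℕ, ∀ N : ℕ, N₁ ≤ N →
      δ * N ≤ (((Icc 1 N).filter (fun n => n % q = c % q ∧
        ∏ i : Fin r, ArithmeticFunction.moebius (((n : ℤ) + α i).toNat) ^ (ε i) = σ)).card : ℝ) := by
  obtain ⟨n₀, hn1, hnc, hP⟩ := hne
  set A : ℕ := univ.sup (fun i => (-α i).toNat) with hA
  have hAi : ∀ i, (-α i).toNat ≤ A := fun i =>
    Finset.le_sup (f := fun i => (-α i).toNat) (mem_univ i)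
  have hAn : A ≤ n₀ := by
    apply Finset.sup_le
    intro i _
    rw [Finset.prod_ne_zero_iff] at hP
    have h1 := hP i (mem_univ i)
    by_contra hcon
    apply h1
    have h2 : ((n₀ : ℤ) + α i).toNat = 0 := by omega
    rw [h2]
    rcases hε i with h | h <;> rw [h] <;> simp
  set b : Fin r → ℕ := fun i => ((A : ℤ) + α i).toNat with hb
  have hbe : ∀ (n : ℕ) (i : Fin r), (((n + A : ℕ) : ℤ) + α i).toNat = n + b i := by
    intro n i
    have h1 := hAi i
    simp only [hb]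
    push_cast
    omega
  have hbinj : ∀ i i', b i = b i' → i = i' := by
    intro i i' h
    apply hα
    have h1 := hAi i
    have h2 := hAi i'
    simp only [hb] at h
    omega
  have hPn : ∀ n : ℕ, ∏ i : Fin r, ArithmeticFunction.moebius ((((n + A : ℕ) : ℤ) + α i).toNat) ^ (ε i)
      = ∏ i : Fin r, ArithmeticFunction.moebius ((fun _ : Fin r => 1) i * n + b i) ^ (ε i) := by
    intro n
    refine Finset.prod_congr rfl fun i _ => ?_
    rw [hbe n i]
    simp only [one_mul]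
  obtain ⟨δ, N₁, hδ, h⟩ := Pool.Agent.H970R2.X.mu_fam (fun _ : Fin r => 1) b ε
    (fun _ => one_pos) hε hex
    (by
      intro i i' _ _ hne h
      simp only [one_mul] at h
      exact hne (hbinj i i' h.symm))
    (fun i i' _ _ _ h => hbinj i i' h) q (n₀ - A) hq
    ⟨n₀ - A, rfl, by
      rw [← hPn, Nat.sub_add_cancel hAn]
      exact hP⟩ σ hσ
  refine ⟨δ / 2, by positivity, max N₁ A + max N₁ A + 1, fun N hN => ?_⟩
  have hNA : A ≤ N := by
    have := le_max_right N₁ A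
    omega
  have hN1 : N₁ ≤ N - A := by
    have h1 := le_max_left N₁ A
    have h2 := le_max_right N₁ A
    omega
  have h1 := h (N - A) hN1
  have h2 : ((Icc 1 (N - A)).filter (fun n => n % q = (n₀ - A) % q ∧
      ∏ i : Fin r, ArithmeticFunction.moebius ((fun _ : Fin r => 1) i * n + b i) ^ (ε i) = σ)).card ≤
      ((Icc 1 N).filter (fun n => n % q = c % q ∧
        ∏ i : Fin r, ArithmeticFunction.moebius (((n : ℤ) + α i).toNat) ^ (ε i) = σ)).card := by
    apply Finset.card_le_card_of_injOn (fun n => n + A)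
    · intro n hn
      rw [Finset.mem_coe, mem_filter, mem_Icc] at hn
      rw [Finset.mem_coe, mem_filter, mem_Icc]
      beta_reduce
      refine ⟨⟨by omega, by omega⟩, ?_, ?_⟩
      · rw [← hnc]
        have : (n + A) % q = ((n₀ - A) + A) % q := Nat.ModEq.add_right A hn.2.1
        rw [this, Nat.sub_add_cancel hAn]
      · rw [hPn]; exact hn.2.2
    · intro x _ y _ hxy
      simp only at hxy
      omega
  have h3 : (N : ℝ) ≤ 2 * ((N - A : ℕ) : ℝ) := by
    have h4 : N ≤ 2 * (N - A) := by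
      have h1 := le_max_right N₁ A
      omega
    exact_mod_cast h4
  have h4 : δ / 2 * N ≤ δ * ((N - A : ℕ) : ℝ) := by nlinarith
  refine h4.trans (h1.trans ?_)
  exact_mod_cast h2

/-- Let `α_i` be distinct integers, exponents `ε_i ∈ {1, 2}`, not all `2`, and
`P n = ∏ μ(n + α_i) ^ ε_i` (`μ = 0` on non-positive integers). (1) If `P` does not vanish at some
`n ≥ 1` of the residue class `c mod q`, then for each sign `σ` the `n ≡ c mod q` with `P n = σ` have
positive lower density. (2) If `P` is not identically zero on the positive integers, then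
`|∑_{n ≤ N} P n| ≤ ∑_{n ≤ N} |P n| - δ N` for all large `N`, with some `δ > 0`. -/
theorem result :
    ∀ (r : ℕ) (α : Fin r → ℤ), Function.Injective α →
      ∀ (ε : Fin r → ℕ), (∀ i, ε i = 1 ∨ ε i = 2) → (∃ i, ε i = 1) →
      (∀ q c : ℕ, 0 < q →
        (∃ n : ℕ, 1 ≤ n ∧ n % q = c % q ∧
          ∏ i : Fin r, ArithmeticFunction.moebius (((n : ℤ) + α i).toNat) ^ (ε i) ≠ 0) →
        ∀ σ : ℤ, (σ = 1 ∨ σ = -1) → ∃ δ : ℝ, 0 < δ ∧ ∃ N₁ : ℕ, ∀ N : ℕ, N₁ ≤ N →
          δ * N ≤ (((Icc 1 N).filter (fun n => n % q = c % q ∧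
            ∏ i : Fin r,
              ArithmeticFunction.moebius (((n : ℤ) + α i).toNat) ^ (ε i) = σ)).card : ℝ)) ∧
      ((∃ n : ℕ, 1 ≤ n ∧
          ∏ i : Fin r, ArithmeticFunction.moebius (((n : ℤ) + α i).toNat) ^ (ε i) ≠ 0) →
        ∃ δ : ℝ, 0 < δ ∧ ∃ N₁ : ℕ, ∀ N : ℕ, N₁ ≤ N →
          |∑ n ∈ Icc 1 N, ∏ i : Fin r,
            ((ArithmeticFunction.moebius (((n : ℤ) + α i).toNat) : ℤ) : ℝ) ^ (ε i)| ≤
          ∑ n ∈ Icc 1 N, |∏ i : Fin r,
            ((ArithmeticFunction.moebius (((n : ℤ) + α i).toNat) : ℤ) : ℝ) ^ (ε i)| - δ * N) := by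
  intro r α hα ε hε hex
  refine ⟨fun q c hq hne σ hσ => key α hα ε hε hex q c hq hne σ hσ, ?_⟩
  rintro ⟨n, hn, hP⟩
  have hne' : ∃ n : ℕ, 1 ≤ n ∧ n % 1 = 0 % 1 ∧
      ∏ i : Fin r, ArithmeticFunction.moebius (((n : ℤ) + α i).toNat) ^ (ε i) ≠ 0 :=
    ⟨n, hn, by rw [Nat.mod_one], hP⟩
  obtain ⟨δ₁, hδ₁, N₁, h₁⟩ := key α hα ε hε hex 1 0 one_pos hne' 1 (Or.inl rfl)
  obtain ⟨δ₂, hδ₂, N₂, h₂⟩ := key α hα ε hε hex 1 0 one_pos hne' (-1) (Or.inr rfl)
  refine ⟨2 * min δ₁ δ₂, by positivity, max N₁ N₂, fun N hN => ?_⟩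
  have hN0 : (0 : ℝ) ≤ N := Nat.cast_nonneg N
  set P : ℕ → ℤ := fun n => ∏ i : Fin r, ArithmeticFunction.moebius (((n : ℤ) + α i).toNat) ^ (ε i)
    with hPdef
  have e1 : ∀ n : ℕ, ∏ i : Fin r,
      ((ArithmeticFunction.moebius (((n : ℤ) + α i).toNat) : ℤ) : ℝ) ^ (ε i) = (P n : ℝ) := by
    intro n; simp only [hPdef]; push_cast; rfl
  have h3 : min δ₁ δ₂ * N ≤ (((Icc 1 N).filter (fun n => P n = 1)).card : ℝ) := by
    refine (mul_le_mul_of_nonneg_right (min_le_left _ _) hN0).trans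
      ((h₁ N (le_trans (le_max_left _ _) hN)).trans ?_)
    refine Nat.cast_le.2 (Finset.card_le_card ?_)
    intro n hn
    rw [mem_filter] at hn ⊢
    exact ⟨hn.1, hn.2.2⟩
  have h4 : min δ₁ δ₂ * N ≤ (((Icc 1 N).filter (fun n => P n = -1)).card : ℝ) := by
    refine (mul_le_mul_of_nonneg_right (min_le_right _ _) hN0).trans
      ((h₂ N (le_trans (le_max_right _ _) hN)).trans ?_)
    refine Nat.cast_le.2 (Finset.card_le_card ?_)
    intro n hn
    rw [mem_filter] at hn ⊢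
    exact ⟨hn.1, hn.2.2⟩
  have h5 := Pool.Agent.H970R2.X.sum_bound P (fun n => vals α ε n) N _ h3 h4
  simp only [e1]
  linarith

end Pool.Agent.Results.MP_c59857_nt.AllOrdersBothSigns
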