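import Mathlib
import Pool.Agent.H300R2.NB.MobB

namespace Pool.Agent.Results.MP_c59857_nt.AlmostAllTuples
open Finset

/-- The Möbius function on the integers of `[1, x]`, extended by zero to all integers. -/
noncomputable def muUpTo (x : ℕ) (m : ℤ) : ℂ :=
  if 1 ≤ m ∧ m ≤ x then ((ArithmeticFunction.moebius m.toNat : ℤ) : ℂ) else 0

/-- **Chowla sums for almost all tuples.** Part 1: let `v i n = T i n + a i * n ^ j i + b i` with arbitrary functions
`T i`, and let `(a i, b i)` run over a box of `A i` times `X i` integers. If one of the boxes, the `k`-th, has the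
natural size (`A k` times `K ^ j k` and `X k` are at least `x` divided by a power of `log x`, and `K` and `A k` are at
least a large power of `log x`), then for arbitrary functions `w`, `g i` bounded by one, the sum over `n ≤ y` of
`w n * μ (v k n) * ∏ i ≠ k, g i (v i n)` is at most `K / (log x) ^ U` for all `y ≤ K`, outside an exceptional set of
relative size `1 / (log x) ^ U`. Part 2: Chowla's sums along `r` linear forms, for almost all tuples of pairs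
`(a i, b i)` with `|a i| ≤ x / K` and `|b i| ≤ x`, simultaneously for all exponents of which at least one is odd and
for all `y ≤ K`. -/
theorem result :
    (∀ r J C U : ℕ, ∃ B x0 : ℕ, ∀ x : ℕ, x0 ≤ x → ∀ K : ℕ, Real.log x ^ B ≤ K →
      ∀ (j A X : Fin r → ℕ) (k : Fin r), 1 ≤ j k → j k ≤ J → Real.log x ^ B ≤ A k →
      (x : ℝ) ≤ A k * (K : ℝ) ^ j k * Real.log x ^ C → (x : ℝ) ≤ X k * Real.log x ^ C →
      ∀ (A0 B0 : Fin r → ℤ) (T : Fin r → ℕ → ℤ) (w : ℕ → ℂ) (g : Fin r → ℤ → ℂ),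
      (∀ n, ‖w n‖ ≤ 1) → (∀ i m, ‖g i m‖ ≤ 1) →
      ∃ Ex : Finset (Fin r → ℤ × ℤ), (Ex.card : ℝ) ≤ (∏ i, (A i * X i : ℝ)) / Real.log x ^ U ∧
        ∀ a b : Fin r → ℤ, (∀ i, A0 i < a i ∧ a i ≤ A0 i + A i) → (∀ i, B0 i < b i ∧ b i ≤ B0 i + X i) →
        (fun i => (a i, b i)) ∉ Ex → ∀ y : ℕ, y ≤ K →
          ‖∑ n ∈ Icc 1 y, w n * muUpTo x (T k n + a k * (n : ℤ) ^ j k + b k) *
            ∏ i ∈ univ.erase k, g i (T i n + a i * (n : ℤ) ^ j i + b i)‖ ≤ K / Real.log x ^ U) ∧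
    (∀ r U : ℕ, ∃ B x0 : ℕ, ∀ x : ℕ, x0 ≤ x → ∀ K : ℕ, Real.log x ^ B ≤ K → K * Real.log x ^ B ≤ x →
      ∃ Ex : Finset (Fin r → ℤ × ℤ), (Ex.card : ℝ) ≤ ((x : ℝ) ^ 2 / K) ^ r / Real.log x ^ U ∧
        ∀ a b : Fin r → ℤ, (∀ i, |a i| * K ≤ x) → (∀ i, |b i| ≤ x) → (fun i => (a i, b i)) ∉ Ex →
        ∀ e : Fin r → ℕ, (∃ k, Odd (e k)) → ∀ y : ℕ, y ≤ K →
          |((∑ n ∈ Icc 1 y, ∏ i, ArithmeticFunction.moebius (a i * (n : ℤ) + b i).toNat ^ e i : ℤ) : ℝ)| ≤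
            K / Real.log x ^ U) := by
  constructor
  · intro r J C U
    obtain ⟨B, x0, h⟩ := Pool.Agent.H300R2.NB.mobius r J C U
    refine ⟨B, x0, fun x hx K hK j A X k h1 h2 h3 h4 h5 A0 B0 T w g hw hg => ?_⟩
    obtain ⟨Ex, hE, h6⟩ := h x hx K hK j A X k h1 h2 h3 h4 h5 A0 B0 T w g hw hg
    refine ⟨Ex, hE, fun a b ha hb hab y hy => ?_⟩
    refine h6 (fun i => (a i, b i)) ?_ hab y hy
    unfold Pool.Agent.H300R2.NB.Bx
    rw [Fintype.mem_piFinset]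
    intro i
    rw [mem_product, mem_Ioc, mem_Ioc]
    exact ⟨ha i, hb i⟩
  · intro r U
    obtain ⟨B, x0, h⟩ := Pool.Agent.H300R2.NB.mobius_lin r U
    refine ⟨B, x0, fun x hx K hK hKx => ?_⟩
    obtain ⟨Ex, hE, h6⟩ := h x hx K hK hKx
    exact ⟨Ex, hE, fun a b ha hb hab e he y hy => h6 (fun i => (a i, b i)) hab ha hb e he y hy⟩

end Pool.Agent.Results.MP_c59857_nt.AlmostAllTuples
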