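import Mathlib
import Pool.Agent.H311R2.EvenOrder

/-!
Chowla products with an even number of exponents equal to one: a one-sided bound, for any number of
factors, under a local condition at the primes `p ≤ r`.
-/

open Filter Topology Finset

namespace Pool.Agent.Results.MP_c59857_nt.EvenOrderSign

/-- The product `μ(n + α_1)^{ε_1} ⋯ μ(n + α_r)^{ε_r}` of the problem (with `μ(m) = 0` for
`m ≤ 0`). -/
def P {r : ℕ} (α : Fin r → ℤ) (ε : Fin r → ℕ) (n : ℕ) : ℤ :=
  ∏ i : Fin r, ArithmeticFunction.moebius (((n : ℤ) + α i).toNat) ^ ε i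

/-- Local condition at the prime `p`: some integer `m` is such that `p²` divides none of the numbers
`m + α_k` (all `k`) and none of the numbers `2m + α_i + α_k` (all `k`, and all `i` with
`ε_i = 1`). -/
def LocalAt {r : ℕ} (α : Fin r → ℤ) (ε : Fin r → ℕ) (p : ℕ) : Prop :=
  ∃ m : ℤ, ∀ k, ¬ (p : ℤ) ^ 2 ∣ m + α k ∧ ∀ i, ε i = 1 → ¬ (p : ℤ) ^ 2 ∣ 2 * m + α i + α k

/-- coefficients of the linear forms -/
def fa {r : ℕ} (ε : Fin r → ℕ) : Option (Fin r) × Fin r → ℕ
  | (none, _) => 1
  | (some i, _) => if ε i = 1 then 2 else 1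

/-- constant terms of the linear forms -/
def fb {r : ℕ} (α : Fin r → ℤ) (ε : Fin r → ℕ) : Option (Fin r) × Fin r → ℤ
  | (none, k) => α k
  | (some i, k) => if ε i = 1 then α i + α k else α k

lemma local_all {r : ℕ} (α : Fin r → ℤ) (ε : Fin r → ℕ) (hr : 2 ≤ r)
    (hloc : ∀ p : ℕ, p.Prime → p ≤ r → LocalAt α ε p) (p : ℕ) (hp : p.Prime) :
    ∃ m : ℕ, ∀ j, ¬ ((p : ℤ) ^ 2 ∣ fa ε j * m + fb α ε j) := by
  by_cases hpr : p ≤ r
  · obtain ⟨m, hm⟩ := hloc p hp hpr
    have hp2 : (0 : ℤ) < (p : ℤ) ^ 2 := by have := hp.pos; positivity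
    refine ⟨(m % (p : ℤ) ^ 2).toNat, ?_⟩
    have hcast : (((m % (p : ℤ) ^ 2).toNat : ℕ) : ℤ) = m % (p : ℤ) ^ 2 :=
      Int.toNat_of_nonneg (Int.emod_nonneg _ hp2.ne')
    have key : ∀ (a b : ℤ), (p : ℤ) ^ 2 ∣ a * (m % (p : ℤ) ^ 2) + b → (p : ℤ) ^ 2 ∣ a * m + b := by
      intro a b h
      have e : a * m + b = (a * (m % (p : ℤ) ^ 2) + b) + (p : ℤ) ^ 2 * (a * (m / (p : ℤ) ^ 2)) := by
        have := Int.emod_add_mul_ediv m ((p : ℤ) ^ 2)
        linear_combination (-a) * this
      rw [e]
      exact dvd_add h (dvd_mul_right _ _)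
    rintro ⟨(_ | i), k⟩ hdiv
    · rw [hcast] at hdiv
      have := key _ _ hdiv
      apply (hm k).1
      simpa [fa, fb] using this
    · rw [hcast] at hdiv
      have := key _ _ hdiv
      by_cases hi : ε i = 1
      · apply (hm k).2 i hi
        simpa [fa, fb, hi, add_assoc] using this
      · apply (hm k).1
        simpa [fa, fb, hi] using this
  · push Not at hpr
    have h2 : p ≠ 2 := by omega
    have := Pool.Agent.H311R2.exists_good (ι := Option (Fin r) × Fin r) (p ^ 2) (by
      rw [Fintype.card_prod, Fintype.card_option, Fintype.card_fin]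
      nlinarith) (fun j => (fa ε j : ℤ)) (fb α ε) (by
      have hcop : IsCoprime ((p : ℤ) ^ 2) 2 := by
        apply IsCoprime.pow_left
        have : Nat.Coprime p 2 := (Nat.coprime_primes hp Nat.prime_two).2 h2
        exact_mod_cast Nat.isCoprime_iff_coprime.2 this
      rintro ⟨(_ | i), k⟩
      · simpa [fa] using isCoprime_one_right
      · by_cases hi : ε i = 1
        · simpa [fa, hi] using hcop
        · simpa [fa, hi] using isCoprime_one_right)
    simpa using this

/-- Let `α_1, …, α_r` be integers and `ε ∈ {1,2}^r` with an even number `≥ 2` of `ε_i = 1`. If the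
local condition holds at the primes `p ≤ r`, then `{n : P n = 1}` has positive lower natural
density, and the averages `S_N` stay, for all large `N`, above the trivial lower bound by a positive
constant. -/
theorem result :
    ∀ (r : ℕ) (α : Fin r → ℤ) (ε : Fin r → ℕ), (∀ i, ε i = 1 ∨ ε i = 2) →
      Even (Finset.univ.filter fun i => ε i = 1).card →
      2 ≤ (Finset.univ.filter fun i => ε i = 1).card →
      (∀ p : ℕ, p.Prime → p ≤ r → LocalAt α ε p) →
      ∃ c : ℝ, 0 < c ∧ ∀ᶠ N : ℕ in atTop,
        c * N ≤ ((Finset.Icc 1 N).filter fun n => P α ε n = 1).card ∧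
        -((∑ n ∈ Finset.Icc 1 N, |(P α ε n : ℝ)|) / N) + c ≤
          (∑ n ∈ Finset.Icc 1 N, (P α ε n : ℝ)) / N := by
  classical
  intro r α ε hε heven h2 hloc
  have hr : 2 ≤ r := h2.trans (by
    have := Finset.card_filter_le (univ : Finset (Fin r)) (fun i => ε i = 1)
    rwa [card_univ, Fintype.card_fin] at this)
  obtain ⟨W, m₁, hW, hBm, hpos, hsq⟩ := Pool.Agent.H311R2.local_global (fa ε) (fb α ε)
    (by
      rintro ⟨(_ | i), k⟩
      · simp [fa]
      · by_cases hi : ε i = 1 <;> simp [fa, hi])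
    (local_all α ε hr hloc) (∑ i, (α i).natAbs)
  have hab : ∀ i, 0 ≤ (m₁ : ℤ) + α i := by
    intro i
    have h1 : (α i).natAbs ≤ ∑ i, (α i).natAbs :=
      Finset.single_le_sum (f := fun i => (α i).natAbs) (fun _ _ => Nat.zero_le _) (mem_univ i)
    omega
  have hposx : ∀ k, 0 < (m₁ : ℤ) + α k := by
    intro k
    have := hpos (none, k)
    simpa [fa, fb] using this
  set A : Option (Fin r) → ℕ := fun s => match s with
    | none => W
    | some _ => 2 * W with hA
  set B : Option (Fin r) → ℕ := fun s => match s with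
    | none => m₁
    | some i => (2 * (m₁ : ℤ) + α i).toNat with hB
  obtain ⟨c, hc, h₁⟩ := Pool.Agent.H311R2.density_of_family A B (by
      rintro (_ | i)
      · exact hW
      · show 0 < 2 * W
        omega)
    (fun n => P α ε n = 1) (by
      filter_upwards [hsq] with T hT
      refine hT.trans ?_
      norm_cast
      refine card_le_card fun t ht => ?_
      rw [mem_filter] at ht ⊢
      refine ⟨ht.1, ?_⟩
      set m : ℕ := W * t + m₁ with hm
      have hx : ∀ k, Squarefree (((m : ℤ) + α k).toNat) := by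
        intro k
        have := ht.2 (none, k)
        simpa [fa, fb] using this
      have hxpos : ∀ k, 0 < (m : ℤ) + α k := by
        intro k
        have := hposx k
        have h3 : (m : ℤ) = W * t + m₁ := by rw [hm]; push_cast; ring
        have h4 : (0 : ℤ) ≤ W * t := by positivity
        linarith
      have hy : ∀ i k, ε i = 1 → Squarefree ((2 * (m : ℤ) + (α i + α k)).toNat) := by
        intro i k hi
        have := ht.2 (some i, k)
        simpa [fa, fb, hi] using this
      have hpos2 : ∀ i, 0 ≤ 2 * (m : ℤ) + α i := by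
        intro i
        have := hxpos i
        have h3 : (0 : ℤ) ≤ m := by positivity
        linarith
      have hrel := Pool.Agent.H311R2.chow_relation hε hx hxpos hy hpos2
      rw [heven.neg_one_pow] at hrel
      have hn : ∀ i, (2 * (m : ℤ) + α i).toNat = A (some i) * t + B (some i) := by
        intro i
        show (2 * (m : ℤ) + α i).toNat = 2 * W * t + (2 * (m₁ : ℤ) + α i).toNat
        have h4 : 0 ≤ 2 * (m₁ : ℤ) + α i := by
          have := hab i
          have h5 : (0 : ℤ) ≤ m₁ := by positivity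
          linarith
        have h3 : 2 * (m : ℤ) + α i = ((2 * W * t : ℕ) : ℤ) + (2 * (m₁ : ℤ) + α i) := by
          rw [hm]; push_cast; ring
        rw [h3]
        omega
      by_contra hcon
      push Not at hcon
      have hne : Pool.Agent.H311R2.chow α ε m ≠ 0 ∧ ∀ i ∈ univ.filter (fun i => ε i = 1),
          Pool.Agent.H311R2.chow α ε ((2 * (m : ℤ) + α i).toNat) ≠ 0 := by
        constructor
        · intro h0
          rw [h0, zero_mul] at hrel
          exact zero_ne_one hrel
        · intro i hi h0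
          rw [Finset.prod_eq_zero hi h0, mul_zero] at hrel
          exact zero_ne_one hrel
      have hm1 : Pool.Agent.H311R2.chow α ε m = -1 := by
        rcases Pool.Agent.H311R2.chow_unit hne.1 with h | h
        · exact absurd h (hcon none)
        · exact h
      have hi1 : ∀ i ∈ univ.filter (fun i => ε i = 1),
          Pool.Agent.H311R2.chow α ε ((2 * (m : ℤ) + α i).toNat) = -1 := by
        intro i hi
        rcases Pool.Agent.H311R2.chow_unit (hne.2 i hi) with h | h
        · exact absurd (by rw [hn i] at h; exact h) (hcon (some i))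
        · exact h
      rw [hm1, Finset.prod_congr rfl hi1, Finset.prod_const, heven.neg_one_pow] at hrel
      norm_num at hrel)
  refine ⟨c, hc, ?_⟩
  filter_upwards [h₁, eventually_ge_atTop 1] with N hN₁ hN
  have hNpos : (0 : ℝ) < N := by exact_mod_cast hN
  refine ⟨hN₁, ?_⟩
  have hval : ∀ n, P α ε n = 0 ∨ P α ε n = 1 ∨ P α ε n = -1 := by
    intro n
    by_cases h0 : P α ε n = 0
    · exact Or.inl h0
    · exact Or.inr (Pool.Agent.H311R2.chow_unit h0)
  have hs : ∀ n, (P α ε n : ℝ) + |(P α ε n : ℝ)| = 2 * (if P α ε n = 1 then 1 else 0) := by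
    intro n
    rcases hval n with h | h | h <;> rw [h] <;> norm_num
  have hs' : (∑ n ∈ Finset.Icc 1 N, (P α ε n : ℝ)) + ∑ n ∈ Finset.Icc 1 N, |(P α ε n : ℝ)| =
      2 * ((Finset.Icc 1 N).filter fun n => P α ε n = 1).card := by
    rw [← Finset.sum_add_distrib, Finset.sum_congr rfl fun n _ => hs n, ← Finset.mul_sum,
      Finset.sum_boole]
  have h3 : c * N ≤ (∑ n ∈ Finset.Icc 1 N, (P α ε n : ℝ)) + ∑ n ∈ Finset.Icc 1 N, |(P α ε n : ℝ)| := by
    rw [hs']
    have : 0 ≤ (((Finset.Icc 1 N).filter fun n => P α ε n = 1).card : ℝ) := by positivity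
    linarith
  rw [neg_add_le_iff_le_add, ← add_div, le_div_iff₀ hNpos]
  linarith

end Pool.Agent.Results.MP_c59857_nt.EvenOrderSign
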