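import Mathlib
import Pool.Agent.H311R2.Dichotomy
import Pool.Agent.H311R2.FamilyDensity

/-!
Chowla products with an odd number of exponents equal to one: if both signs occur at all, then both
signs occur with positive lower natural density.
-/

open Filter Topology Finset

namespace Pool.Agent.Results.MP_c59857_nt.OddOrderDichotomy

/-- The product `μ(n + α_1)^{ε_1} ⋯ μ(n + α_r)^{ε_r}` of the problem (with `μ(m) = 0` for
`m ≤ 0`). -/
def P {r : ℕ} (α : Fin r → ℤ) (ε : Fin r → ℕ) (n : ℕ) : ℤ :=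
  ∏ i : Fin r, ArithmeticFunction.moebius (((n : ℤ) + α i).toNat) ^ ε i

/-- Let `α_1, …, α_r` be integers and `ε ∈ {1,2}^r` with an odd number of `ε_i = 1`. If the product
`P` takes the value `1` and the value `-1` at least once each (on positive integers), then both
`{n : P n = 1}` and `{n : P n = -1}` have positive lower natural density; consequently the averages
`S_N` stay, for all large `N`, at a positive distance from the trivial bound. -/
theorem result :
    ∀ (r : ℕ) (α : Fin r → ℤ) (ε : Fin r → ℕ), (∀ i, ε i = 1 ∨ ε i = 2) →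
      Odd (Finset.univ.filter fun i => ε i = 1).card →
      (∃ b : ℕ, 1 ≤ b ∧ P α ε b = 1) → (∃ b : ℕ, 1 ≤ b ∧ P α ε b = -1) →
      ∃ c : ℝ, 0 < c ∧ ∀ᶠ N : ℕ in atTop,
        c * N ≤ ((Finset.Icc 1 N).filter fun n => P α ε n = 1).card ∧
        c * N ≤ ((Finset.Icc 1 N).filter fun n => P α ε n = -1).card ∧
        |(∑ n ∈ Finset.Icc 1 N, (P α ε n : ℝ)) / N| ≤
          (∑ n ∈ Finset.Icc 1 N, |(P α ε n : ℝ)|) / N - c := by
  intro r α ε hε hodd ⟨b, _, hb⟩ ⟨b', _, hb'⟩
  obtain ⟨A, B, hA, hfam⟩ := Pool.Agent.H311R2.exists_family hε hodd hb hb'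
  obtain ⟨c₁, hc₁, h₁⟩ := Pool.Agent.H311R2.density_of_family A B hA
    (fun n => P α ε n = 1) (by
      filter_upwards [hfam] with T hT
      refine hT.trans ?_
      norm_cast
      refine card_le_card fun t ht => ?_
      rw [mem_filter] at ht ⊢
      exact ⟨ht.1, ht.2.1⟩)
  obtain ⟨c₂, hc₂, h₂⟩ := Pool.Agent.H311R2.density_of_family A B hA
    (fun n => P α ε n = -1) (by
      filter_upwards [hfam] with T hT
      refine hT.trans ?_
      norm_cast
      refine card_le_card fun t ht => ?_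
      rw [mem_filter] at ht ⊢
      exact ⟨ht.1, ht.2.2⟩)
  refine ⟨min c₁ c₂, lt_min hc₁ hc₂, ?_⟩
  filter_upwards [h₁, h₂, eventually_ge_atTop 1] with N hN₁ hN₂ hN
  have hNpos : (0 : ℝ) < N := by exact_mod_cast hN
  have k₁ : min c₁ c₂ * N ≤ ((Finset.Icc 1 N).filter fun n => P α ε n = 1).card :=
    (mul_le_mul_of_nonneg_right (min_le_left _ _) hNpos.le).trans hN₁
  have k₂ : min c₁ c₂ * N ≤ ((Finset.Icc 1 N).filter fun n => P α ε n = -1).card :=
    (mul_le_mul_of_nonneg_right (min_le_right _ _) hNpos.le).trans hN₂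
  refine ⟨k₁, k₂, ?_⟩
  -- the sums in terms of the two counts
  have hval : ∀ n, P α ε n = 0 ∨ P α ε n = 1 ∨ P α ε n = -1 := by
    intro n
    by_cases h0 : P α ε n = 0
    · exact Or.inl h0
    · exact Or.inr (Pool.Agent.H311R2.chow_unit h0)
  have hs : ∀ n, (P α ε n : ℝ) = (if P α ε n = 1 then 1 else 0) - (if P α ε n = -1 then 1 else 0) := by
    intro n
    rcases hval n with h | h | h <;> rw [h] <;> norm_num
  have ha : ∀ n, |(P α ε n : ℝ)| = (if P α ε n = 1 then 1 else 0) + (if P α ε n = -1 then 1 else 0) := by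
    intro n
    rcases hval n with h | h | h <;> rw [h] <;> norm_num
  have hs' : ∑ n ∈ Finset.Icc 1 N, (P α ε n : ℝ) =
      ((Finset.Icc 1 N).filter fun n => P α ε n = 1).card -
        ((Finset.Icc 1 N).filter fun n => P α ε n = -1).card := by
    rw [Finset.sum_congr rfl fun n _ => hs n, Finset.sum_sub_distrib, Finset.sum_boole,
      Finset.sum_boole]
  have ha' : ∑ n ∈ Finset.Icc 1 N, |(P α ε n : ℝ)| =
      ((Finset.Icc 1 N).filter fun n => P α ε n = 1).card +
        ((Finset.Icc 1 N).filter fun n => P α ε n = -1).card := by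
    rw [Finset.sum_congr rfl fun n _ => ha n, Finset.sum_add_distrib, Finset.sum_boole,
      Finset.sum_boole]
  rw [hs', ha', abs_div, abs_of_pos hNpos, div_le_iff₀ hNpos, sub_mul, div_mul_cancel₀ _ hNpos.ne']
  have hc : 0 < min c₁ c₂ * N := mul_pos (lt_min hc₁ hc₂) hNpos
  rw [abs_le]
  constructor <;> linarith

end Pool.Agent.Results.MP_c59857_nt.OddOrderDichotomy
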